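import Mathlib
import Pool.Agent.H32.Kun

open Set Filter Function
open Cardinal hiding univ

namespace Pool.Agent.Results.MP_817dae_lc.NoBorelMED

open Pool.Agent.H32 Kun

/-- `E` is an `I`-maximal eventually different family -/
def MED (I : Set (Set ℕ)) (E : Set (ℕ → ℕ)) : Prop :=
  (∀ f ∈ E, ∀ g ∈ E, f ≠ g → {n | f n = g n} ∈ I) ∧ ∀ h : ℕ → ℕ, ∃ f ∈ E, {n | f n = h n} ∉ I

def Z (r : T → ℕ → ℕ) (τ : Finset T) (σ : T → ℕ) : Set ℕ := {k | ∀ β ∈ τ, r β k = σ β}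

lemma fam : ∃ r : T → ℕ → ℕ, ∀ τ σ, (Z r τ σ).Infinite := by
  have : Infinite (Σ k : ℕ, (Fin k → Bool) → ℕ) :=
    Infinite.of_injective (fun k : ℕ => ⟨k, fun _ => 0⟩) fun a b h => congrArg Sigma.fst h
  obtain ⟨e⟩ : Nonempty (ℕ ≃ Σ k : ℕ, (Fin k → Bool) → ℕ) := nonempty_equiv_of_countable
  refine ⟨fun β k => (e k).2 (res _ β), fun τ σ => ?_⟩
  obtain ⟨N, hN⟩ := eventually_atTop.1 (sep τ)
  refine infinite_of_injective_forall_mem (f := fun n => e.symm ⟨N + n,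
    extend (fun β : τ => res _ β.1) (fun β => σ β.1) 0⟩)
    (fun a b h => by simpa using congrArg Sigma.fst (e.symm.injective h)) fun n β hβ => ?_
  beta_reduce
  rw [Equiv.apply_symm_apply]
  exact Injective.extend_apply (f := fun β : τ => res (N + n) β.1) (fun a b h =>
    Subtype.ext (hN _ (Nat.le_add_right _ _) _ a.2 _ b.2 h)) (fun β => σ β.1) _ ⟨β, hβ⟩

def Nd (r : T → ℕ → ℕ) (S : Set (Set ℕ ⊕ T)) (A : Set ℕ) : Prop :=
  ∀ (τ : Finset T) (σ : T → ℕ), (∀ β ∈ τ, Sum.inr β ∉ S) → ∃ τ' σ', (∀ β ∈ τ', Sum.inr β ∉ S) ∧ τ ⊆ τ' ∧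
    (∀ β ∈ τ, σ' β = σ β) ∧ ∀ᶠ k in F S, k ∈ Z r τ' σ' → k ∉ A

lemma Z_mono {r : T → ℕ → ℕ} {τ τ' : Finset T} {σ σ' : T → ℕ} (h : τ ⊆ τ')
    (h' : ∀ β ∈ τ, σ' β = σ β) : Z r τ' σ' ⊆ Z r τ σ := fun _ k β hβ =>
  (k β (h hβ)).trans (h' β hβ)

lemma Nd.fin {r : T → ℕ → ℕ} {S : Set (Set ℕ ⊕ T)} {ι : Type} (s : Finset ι) (A : ι → Set ℕ)
    (h : ∀ i ∈ s, Nd r S (A i)) : Nd r S (⋃ i ∈ s, A i) := by
  classical
  induction s using Finset.induction_on with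
  | empty => exact fun τ σ k => ⟨τ, σ, k, subset_rfl, fun _ _ => rfl, by simp⟩
  | insert i s _ ih =>
    intro τ σ k
    obtain ⟨τ1, σ1, a1, a2, a3, a4⟩ := h i (by simp) τ σ k
    obtain ⟨τ2, σ2, b1, b2, b3, b4⟩ := ih (fun j hj => h j (by simp [hj])) τ1 σ1 a1
    refine ⟨τ2, σ2, b1, a2.trans b2, fun β hβ => (b3 β (a2 hβ)).trans (a3 β hβ), ?_⟩
    filter_upwards [a4, b4] with n n1 n2 z
    rw [Finset.set_biUnion_insert]
    exact fun y => y.elim (n1 (Z_mono b2 b3 z)) (n2 z)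

theorem result : ∃ U : Ultrafilter ℕ, (∀ n : ℕ, U ≠ pure n) ∧
    ∀ E : Set (ℕ → ℕ), @MeasurableSet _ (borel (ℕ → ℕ)) E → ¬ MED {A | Aᶜ ∈ U} E := by
  classical
  obtain ⟨r, x3⟩ := fam
  have hT : #T = 𝔠 := by simp [T]
  obtain ⟨S, h1, h2⟩ := Maz.build (T := {E | @MeasurableSet _ (borel (ℕ → ℕ)) E}) (by
      rw [(TopologicalSpace.isBasis_countableBasis (ℕ → ℕ)).borel_eq_generateFrom]
      exact MeasurableSpace.cardinal_measurableSet_le_continuum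
        ((le_aleph0_iff_set_countable.2 (TopologicalSpace.countable_countableBasis _)).trans
          aleph0_le_continuum)) π
    (fun S => ∀ τ σ, (∀ β ∈ τ, Sum.inr β ∉ S) → ∃ᶠ k in F S, k ∈ Z r τ σ)
    (fun E S => (∃ f ∈ E.1, ∃ g ∈ E.1, f ≠ g ∧ Sum.inl {n | f n = g n} ∈ S) ∨
      ∃ h : ℕ → ℕ, ∀ f ∈ E.1, Sum.inl {n | f n = h n}ᶜ ∈ S)
    (fun E S S' h k => k.imp (fun ⟨f, a, g, b, c, d⟩ => ⟨f, a, g, b, c, h d⟩)
      fun ⟨β, a⟩ => ⟨β, fun α z => h (a α z)⟩)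
    (fun c hc h τ σ hτ k => by
      obtain ⟨A, a1, B, b1, k'⟩ := mem_inf_iff.1 k
      clear k
      obtain ⟨t, t1, t2, t3⟩ := mem_generate_iff.1 b1
      rcases c.eq_empty_or_nonempty with rfl | hn
      · obtain rfl : t = ∅ := by simpa using t1
        obtain ⟨n, n1, n2⟩ := ((frequently_cofinite_iff_infinite.2 (x3 τ σ)).and_eventually a1).exists
        exact (k'.ge ⟨n2, t3 (by simp)⟩ :) n1
      · obtain ⟨S, s1, s2⟩ := hc.exists_mem_subset_of_finite_of_subset_sUnion hn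
          (t2.image Sum.inl) (image_subset_iff.2 t1)
        refine h S s1 τ σ (fun β hβ q => hτ β hβ ⟨S, s1, q⟩) ?_
        exact mem_inf_iff.2 ⟨A, a1, B, mem_generate_iff.2 ⟨t, image_subset_iff.1 s2, t2, t3⟩, k'⟩)
    (fun S h hs ⟨E, _⟩ => by
      by_cases q : ∀ f ∈ E, ∀ g ∈ E, f ≠ g → Nd r S {n | f n = g n}
      swap
      · simp only [Nd] at q
        push Not at q
        obtain ⟨f, f1, g, g1, q0, τ, σ, q1, q2⟩ := q
        refine ⟨ad S {{n | f n = g n}} τ, subset_union_left, π_ad _ _ _, fun τ' σ' h' => ?_,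
          .inl ⟨f, f1, g, g1, q0, .inr (.inl ⟨_, rfl, rfl⟩)⟩⟩
        rw [F_ad, generate_singleton, frequently_inf_principal]
        refine (q2 (τ ∪ τ') (fun β => if β ∈ τ then σ β else σ' β) (fun β hβ k =>
          (Finset.mem_union.1 hβ).elim (q1 β · k) (h' β · (.inl k))) Finset.subset_union_left
          fun β hβ => if_pos hβ).mono fun k hk => ⟨hk.2, Z_mono Finset.subset_union_right
            (fun β hβ => if_neg fun z => h' β hβ (.inr (.inr ⟨β, z, rfl⟩))) hk.1⟩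
      obtain ⟨f, hf⟩ : ∃ f : ℕ → ℕ → ℕ, ∀ s : Finset E, ∃ j, ∀ g ∈ s, Nd r S {n | g.1 n = f j n} := by
        rcases E.finite_or_infinite with e | e
        · refine ⟨fun _ n => e.toFinset.sup (· n) + 1, fun s => ⟨0, fun g _ τ σ k =>
            ⟨τ, σ, k, subset_rfl, fun _ _ => rfl, Eventually.of_forall fun n _ => ?_⟩⟩⟩
          exact (Nat.lt_succ_of_le (Finset.le_sup (f := (· n)) (e.mem_toFinset.2 g.2))).ne
        · refine ⟨fun j => e.natEmbedding E j, fun s => ?_⟩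
          obtain ⟨j, hj⟩ := (s.finite_toSet.preimage (e.natEmbedding E).injective.injOn).exists_notMem
          exact ⟨j, fun g hg => q _ g.2 _ (e.natEmbedding E j).2 fun z => hj
            (show e.natEmbedding E j ∈ s from Subtype.ext z ▸ hg)⟩
      obtain ⟨β, hβ⟩ : ∃ β, Sum.inr β ∉ S := by
        by_contra! z
        exact absurd (hT.ge.trans (mk_le_of_injective (f := fun β => (⟨some β, _, z β, rfl⟩ :
          π '' S)) fun a b k => by simpa using k)) (not_le.2 hs)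
      refine ⟨ad S (range fun g : E => {n | g.1 n = f (r β n) n}ᶜ) {β}, subset_union_left,
        π_ad _ _ _, fun τ σ h' k => ?_, .inr ⟨_, fun g hg => .inr (.inl ⟨_, ⟨⟨g, hg⟩, rfl⟩, rfl⟩)⟩⟩
      rw [F_ad, generate_eq_biInf, iInf_range] at k
      obtain ⟨A, a1, B, b1, k⟩ := mem_inf_iff.1 k
      obtain ⟨s, hs⟩ := (mem_iInf_finite B).1 b1
      simp only [iInf_principal_finset, mem_principal] at hs
      obtain ⟨j, hj⟩ := hf s
      obtain ⟨τ', σ', c1, c2, c3, c4⟩ := Nd.fin s _ hj (insert β τ) (update σ β j) fun γ hγ z =>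
        (Finset.mem_insert.1 hγ).elim (fun e => hβ (e ▸ z)) (h' γ · (.inl z))
      obtain ⟨n, n1, n2, n3⟩ := ((h τ' σ' c1).and_eventually (c4.and a1)).exists
      have n4 := Z_mono c2 c3 n1
      refine (k.ge ⟨n3, hs (mem_iInter₂.2 fun g hg z => n2 n1 (mem_biUnion hg ?_))⟩ :) fun γ hγ => ?_
      · have := n4 β (Finset.mem_insert_self _ _)
        rw [update_self] at this
        exact this ▸ z
      · have : γ ≠ β := fun z => h' γ hγ (.inr (.inr ⟨β, by simp, by rw [z]⟩))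
        simpa [this] using n4 γ (Finset.mem_insert_of_mem hγ))
  have : (F S).NeBot := ⟨fun k => by simpa [k] using h1 ∅ (fun _ => 0) (by simp)⟩
  let w := Ultrafilter.of (F S)
  have w1 : ∀ A, Sum.inl A ∈ S → A ∈ w := fun A hA =>
    Ultrafilter.of_le (F S) (mem_inf_of_right (mem_generate_of_mem hA))
  refine ⟨w, fun n hn => ?_, fun E hE ⟨m1, m2⟩ => ?_⟩
  · have : {n}ᶜ ∈ w := Ultrafilter.of_le (F S) (mem_inf_of_left (finite_singleton n).compl_mem_cofinite)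
    simp [hn] at this
  rcases h2 ⟨E, hE⟩ with ⟨f, a, g, b, c, d⟩ | ⟨h, a⟩
  · exact Ultrafilter.compl_mem_iff_notMem.1 (m1 f a g b c) (w1 _ d)
  · obtain ⟨f, b, c⟩ := m2 h
    exact c (w1 _ (a f b))

end Pool.Agent.Results.MP_817dae_lc.NoBorelMED
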